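import Pool.Agent.H19.Dfs

set_option autoImplicit false

namespace Pool.Agent.Results.MP_3b2a32_co.Span

open Module

/-- Pairs `(U, V)` of subspaces of `K^n` with `dim U = 1` and `U ⊕ V = K^n`. -/
def Vtx (K : Type*) [Field K] (n : ℕ) :=
  {p : Submodule K (Fin n → K) × Submodule K (Fin n → K) // finrank K p.1 = 1 ∧ IsCompl p.1 p.2}

/-- The graph `A_{K^n}`: `(U, V) ~ (U', V')` iff `U ⊆ V'` and `U' ⊆ V`. -/
def spanGraph (K : Type*) [Field K] (n : ℕ) : SimpleGraph (Vtx K n) where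
  Adj p q := p.1.1 ≤ q.1.2 ∧ q.1.1 ≤ p.1.2
  symm := ⟨fun _ _ h => h.symm⟩
  loopless := ⟨fun p h => by
    have h1 : p.1.1 = ⊥ := p.2.2.disjoint.eq_bot_of_le h.1
    have h2 := p.2.1
    rw [h1] at h2
    simp at h2⟩

def mk {K : Type*} [Field K] {n : ℕ} (u f : Fin n → K) (h : ∑ i, u i * f i = 1) : Vtx K n :=
  ⟨(Submodule.span K {u}, LinearMap.ker (Fintype.linearCombination K f)), by
    have hu : Fintype.linearCombination K f u = 1 := by
      simpa [Fintype.linearCombination_apply] using h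
    constructor
    · apply finrank_span_singleton
      rintro rfl
      simp at hu
    · constructor
      · rw [Submodule.disjoint_def]
        intro x hx hx'
        obtain ⟨c, rfl⟩ := Submodule.mem_span_singleton.mp hx
        simp only [LinearMap.mem_ker, map_smul, hu, smul_eq_mul, mul_one] at hx'
        simp [hx']
      · rw [codisjoint_iff, eq_top_iff]
        intro x _
        refine Submodule.mem_sup.mpr ⟨(Fintype.linearCombination K f x) • u,
          Submodule.smul_mem _ _ (Submodule.mem_span_singleton_self u),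
          x - (Fintype.linearCombination K f x) • u, ?_, by simp⟩
        simp [hu]⟩

theorem mk_adj {K : Type*} [Field K] {n : ℕ} {u f u' f' : Fin n → K} (h : ∑ i, u i * f i = 1)
    (h' : ∑ i, u' i * f' i = 1) (h1 : ∑ i, u i * f' i = 0) (h2 : ∑ i, u' i * f i = 0) :
    (spanGraph K n).Adj (mk u f h) (mk u' f' h') := by
  constructor
  · simpa [mk, Fintype.linearCombination_apply] using h1
  · simpa [mk, Fintype.linearCombination_apply] using h2

def data : List (List ℤ × List ℤ) :=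
  [([1, -1, 1], [0, -1, 0]), ([1, 0, 0], [1, 0, -1]), ([1, 0, 1], [0, 1, 1]),
   ([0, 0, 1], [0, 1, 1]), ([1, 0, 0], [1, 1, 0]), ([1, -1, 1], [0, 0, 1]),
   ([0, 1, 0], [0, 1, 1]), ([1, -1, 1], [1, 0, 0]), ([0, 1, -1], [1, 1, 0]),
   ([0, 0, 1], [-1, 0, 1]), ([1, 0, 1], [1, 1, 0]), ([1, -1, 1], [1, -1, -1]),
   ([0, 1, 0], [0, 1, 0]), ([1, 0, 0], [1, 0, 0]), ([1, -1, 0], [0, -1, 0]),
   ([1, 0, 1], [0, 0, 1]), ([0, 0, 1], [1, 1, 1]), ([0, 1, -1], [0, 0, -1]),
   ([1, -1, 0], [1, 0, 0])]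

def nb : List (List ℕ) :=
  [[], [0], [0, 1], [0], [0, 3], [1, 4], [1, 5], [3, 6], [3, 7], [0, 7], [0, 9], [2, 8, 10],
   [1, 9], [3, 6, 12], [4, 10], [1, 12, 14], [8, 14], [6, 13], [8, 16, 17]]

def uu (i : ℕ) (a : Fin 3) : ℤ := (data.getD i ([1, 0, 0], [1, 0, 0])).1.getD a.1 0
def ff (i : ℕ) (a : Fin 3) : ℤ := (data.getD i ([1, 0, 0], [1, 0, 0])).2.getD a.1 0

theorem diag : ∀ i < 19, ∑ a, uu i a * ff i a = 1 := by decide +kernel
theorem offd : ∀ i < 19, ∀ j ∈ nb.getD i [],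
    j < 19 ∧ ∑ a, uu i a * ff j a = 0 ∧ ∑ a, uu j a * ff i a = 0 := by decide +kernel

def ext (K : Type*) [Field K] (m : ℕ) (v : Fin 3 → ℤ) : Fin (3 + m) → K :=
  Fin.append (fun a => (v a : K)) 0
def bas (K : Type*) [Field K] (m : ℕ) (i : Fin m) : Fin (3 + m) → K :=
  Fin.append 0 (Pi.single i 1)

theorem ee (K : Type*) [Field K] (m : ℕ) (v w : Fin 3 → ℤ) :
    ∑ a, ext K m v a * ext K m w a = ((∑ a, v a * w a : ℤ) : K) := by
  simp [ext, Fin.sum_univ_add]
theorem eb (K : Type*) [Field K] (m : ℕ) (v : Fin 3 → ℤ) (i : Fin m) :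
    ∑ a, ext K m v a * bas K m i a = 0 := by
  simp [ext, bas, Fin.sum_univ_add]
theorem be (K : Type*) [Field K] (m : ℕ) (v : Fin 3 → ℤ) (i : Fin m) :
    ∑ a, bas K m i a * ext K m v a = 0 := by
  simp [ext, bas, Fin.sum_univ_add]
theorem bb (K : Type*) [Field K] (m : ℕ) (i j : Fin m) :
    ∑ a, bas K m i a * bas K m j a = if i = j then 1 else 0 := by
  simp [bas, Fin.sum_univ_add, Pi.single_apply, eq_comm]

theorem result (K : Type*) [Field K] (n : ℕ) (hn : 3 ≤ n) : ¬ (spanGraph K n).Colorable n := by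
  obtain ⟨m, rfl⟩ := Nat.exists_eq_add_of_le hn
  rintro ⟨c⟩
  let B : Fin m → Vtx K (3 + m) := fun i => mk (bas K m i) (bas K m i) (by simp [bb])
  let E : (i : ℕ) → i < 19 → Vtx K (3 + m) := fun i hi =>
    mk (ext K m (uu i)) (ext K m (ff i)) (by rw [ee, diag i hi]; simp)
  have hB : Function.Injective (fun i => c (B i)) := by
    intro i j h
    by_contra hne
    exact c.valid (mk_adj _ _ (by simp [bb, hne]) (by simp [bb, Ne.symm hne])) h
  let S : Finset (Fin (3 + m)) := (Finset.univ.image (fun i => c (B i)))ᶜ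
  have hS : S.card = 3 := by
    simp [S, Finset.card_compl, Finset.card_image_of_injective _ hB]
  have hE : ∀ i hi, c (E i hi) ∈ S := by
    intro i hi
    simp only [S, Finset.mem_compl, Finset.mem_image, Finset.mem_univ, true_and, not_exists]
    intro j
    exact c.valid (mk_adj _ _ (be ..) (eb ..))
  let e := S.equivFinOfCardEq hS
  refine Pool.Agent.H19.Dfs.no_col (fun _ => [0, 1, 2]) nb 19 (by decide +kernel)
    (by decide +kernel) (fun i => if hi : i < 19 then (e ⟨c (E i hi), hE i hi⟩).1 else 0) ?_ ?_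
  · intro j hj
    simp only [hj, dif_pos]
    have := (e ⟨c (E j hj), hE j hj⟩).2
    simp only [List.mem_cons, List.not_mem_nil, or_false]
    omega
  · intro i hi j hj
    obtain ⟨h1, h2, h3⟩ := offd i hi j hj
    simp only [hi, h1, dif_pos]
    intro h
    have h4 := congrArg Subtype.val (e.injective (Fin.ext h))
    exact c.valid (mk_adj _ _ (by rw [ee, h3]; simp) (by rw [ee, h2]; simp)) h4

end Pool.Agent.Results.MP_3b2a32_co.Span
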